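import Pool.Agent.X125.BM.Box

/-! Invariant measures of full Minkowski dimension on Bedford-McMullen carpets. -/

set_option autoImplicit false
open MeasureTheory Set Pool.Agent.X125.BM

namespace Pool.Agent.Results.MP_4f9d30_an.InvariantFullDimension

/-- Every Bedford-McMullen carpet (in particular every one with non-uniform vertical fibres)
carries an invariant measure whose Minkowski dimension is the Minkowski dimension of the carpet. -/
theorem result (m n : ℕ) (hm : 2 ≤ m) (hmn : m < n) (D : Finset (Fin m × Fin n)) (hD : 2 ≤ D.card)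
    (Λ : Set E2) (hne : Λ.Nonempty) (hc : IsCompact Λ) (hΛ : Λ = ⋃ p ∈ D, fmap m n p '' Λ) :
    ∃ ν : Measure (ℕ → Alph D), IsProbabilityMeasure ν ∧ ν.map shift = ν ∧
      HasMinkowskiDim Λ (minkDim (ν.map (code D))) := by
  have hD' : D.Nonempty := Finset.card_pos.mp (by omega)
  refine ⟨nu D, nu_prob D hm hmn hD', nu_map D hm hmn hD', ?_⟩
  rw [minkDim_nu D hm hmn hD', attractor_eq D hm hmn hD' Λ hne hc hΛ]
  exact box_dim D hm hmn hD'

end Pool.Agent.Results.MP_4f9d30_an.InvariantFullDimension
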